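import Pool.Agent.H392R3.Main

/-!
# Tangled configurations of simplices (MP_683378_co), complete answer

The definitions (`E`, `body`, `facet`, `FaceToFace`, `IsTangled`) are in
`Pool/Agent/H392R3/Defs.lean`.
-/

open Pool.Agent.H392R3

/-- For positive integers `n`, `d` there is a tangled family of `n` simplices of dimension `d`
in `ℝ^d` if and only if `d = 3` and `n ≥ 6`, or `d ≥ 4` and `n ≥ d + 2`. -/
theorem Pool.Agent.Results.MP_683378_co.TangledClassification.result (n d : ℕ) (hn : 0 < n)
    (hd : 0 < d) :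
    (∃ S : Fin n → Fin (d + 1) → E d, IsTangled S) ↔
      (d = 3 ∧ 6 ≤ n) ∨ (4 ≤ d ∧ d + 2 ≤ n) :=
  classification n d hn hd
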